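import Pool.Agent.H76.LUD.Seq

/-!
# Turing-to-many-one invariant functions which are cofinally below the identity are constant
-/

set_option autoImplicit false

namespace Pool.Agent.Results.MP_bd1db0_lc.BelowIdentity

open Pool.Agent.H69 Pool.Agent.H81.TM Pool.Agent.H76.LUD

/-- Let `f` send Turing equivalent points above `c0` to many-one equivalent points, and let the
games of the σ-algebra of `f` be determined. If `f x` is Turing reducible to `x` for cofinally
many `x`, then `f` is constant on a cone up to many-one equivalence. -/
theorem result (c0 : ℕ → Bool) (f : (ℕ → Bool) → (ℕ → Bool)) (hdet : GamesDet f)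
    (hinv : ∀ x y, LeT c0 x → LeT c0 y → EqT x y → EqM (f x) (f y))
    (hcof : ∀ c, ∃ x, LeT c x ∧ LeT (f x) x) :
    ∃ c, ∀ x y, LeT c x → LeT c y → EqM (f x) (f y) :=
  All.reg c0 f hdet hinv hcof

end Pool.Agent.Results.MP_bd1db0_lc.BelowIdentity
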