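import Mathlib
import Pool.Agent.H81.TM.Core

/-!
# Turing-to-many-one invariant functions with continuous representatives are constant
-/

set_option autoImplicit false

namespace Pool.Agent.Results.MP_bd1db0_lc.ContinuousRepresentative

open Pool.Agent.H81.TM

/-- Many-one reducibility of elements of Cantor space. -/
def LeM (x y : ℕ → Bool) : Prop := ∃ ρ : ℕ → ℕ, Computable ρ ∧ ∀ n, x n = y (ρ n)

/-- Many-one equivalence. -/
def EqM (x y : ℕ → Bool) : Prop := LeM x y ∧ LeM y x

theorem leM_refl (x : ℕ → Bool) : LeM x x := ⟨id, Computable.id, fun _ => rfl⟩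

theorem leM_trans {x y z : ℕ → Bool} (h : LeM x y) (h' : LeM y z) : LeM x z := by
  obtain ⟨r, hr, h1⟩ := h
  obtain ⟨s, hs, h2⟩ := h'
  exact ⟨fun n => s (r n), hs.comp hr, fun n => by rw [h1, h2]⟩

theorem eqM_equivalence : Equivalence EqM :=
  ⟨fun x => ⟨leM_refl x, leM_refl x⟩, fun h => ⟨h.2, h.1⟩,
    fun h h' => ⟨leM_trans h.1 h'.1, leM_trans h'.2 h.2⟩⟩

/-- The computable functions. -/
abbrev CF : Type := {ρ : ℕ → ℕ // Computable ρ}

instance : Countable CF := by
  have h : ∀ ρ : CF, ∃ c : Nat.Partrec.Code, c.eval = (ρ.1 : ℕ →. ℕ) := fun ρ =>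
    Nat.Partrec.Code.exists_code.1 (Partrec.nat_iff.1 ρ.2)
  choose g hg using h
  have hinj : Function.Injective g := by
    intro a b hab
    have h1 : ((a.1 : ℕ →. ℕ)) = (b.1 : ℕ →. ℕ) := by rw [← hg a, ← hg b, hab]
    refine Subtype.ext (funext fun n => ?_)
    have h2 := congrFun h1 n
    exact Part.some_injective h2
  exact hinj.countable

/-- Many-one equivalence by a given pair of functions. -/
def Rel (p : CF × CF) : Set ((ℕ → Bool) × (ℕ → Bool)) :=
  {q | ∀ n, q.1 n = q.2 (p.1.1 n) ∧ q.2 n = q.1 (p.2.1 n)}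

theorem isClosed_rel (p : CF × CF) : IsClosed (Rel p) := by
  have h : Rel p = ⋂ n, ({q : (ℕ → Bool) × (ℕ → Bool) | q.1 n = q.2 (p.1.1 n)} ∩
      {q : (ℕ → Bool) × (ℕ → Bool) | q.2 n = q.1 (p.2.1 n)}) := by
    ext q
    simp only [Rel, Set.mem_ofPred_eq, Set.mem_iInter, Set.mem_inter_iff]
  rw [h]
  refine isClosed_iInter fun n => IsClosed.inter ?_ ?_
  · exact isClosed_eq ((continuous_apply n).comp continuous_fst)
      ((continuous_apply _).comp continuous_snd)
  · exact isClosed_eq ((continuous_apply n).comp continuous_snd)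
      ((continuous_apply _).comp continuous_fst)

theorem eqM_iff (x y : ℕ → Bool) : EqM x y ↔ ∃ p, (x, y) ∈ Rel p := by
  constructor
  · rintro ⟨⟨r, hr, h1⟩, ⟨s, hs, h2⟩⟩
    exact ⟨(⟨r, hr⟩, ⟨s, hs⟩), fun n => ⟨h1 n, h2 n⟩⟩
  · rintro ⟨p, hp⟩
    exact ⟨⟨p.1.1, p.1.2, fun n => (hp n).1⟩, ⟨p.2.1, p.2.2, fun n => (hp n).2⟩⟩

/-- Let `c` be a real and let `f` send Turing equivalent points of the cone above `c` to many-one
equivalent points. If some continuous `F` represents `f` on the cone up to many-one equivalence,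
then all values of `f` on the cone above `c` are many-one equivalent. -/
theorem result (c : ℕ → Bool) (f : (ℕ → Bool) → (ℕ → Bool))
    (hinv : ∀ x y, LeT c x → LeT c y → EqT x y → EqM (f x) (f y))
    (F : (ℕ → Bool) → (ℕ → Bool)) (hF : Continuous F)
    (hrep : ∀ y, EqM (F y) (f (join y c))) :
    ∀ x y, LeT c x → LeT c y → EqM (f x) (f y) := by
  have hE := eqM_equivalence
  have hcone : ∀ y, LeT c (join y c) := fun y => leT_iff.2 (rc_right (rc_self (join y c)))
  have h1 : ∀ x y, EqM (F x) (F y) := by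
    refine core EqM hE Rel isClosed_rel eqM_iff c F hF ?_
    intro x y hxy
    exact hE.trans (hrep x) (hE.trans (hinv _ _ (hcone x) (hcone y) hxy) (hE.symm (hrep y)))
  have h2 : ∀ x, LeT c x → EqM (f x) (F x) := by
    intro x hx
    refine hE.trans (hinv x (join x c) hx (hcone x) ⟨?_, ?_⟩) (hE.symm (hrep x))
    · exact leT_iff.2 (rc_left (rc_self (join x c)))
    · exact leT_iff.2 (rc_join (rc_self x) (leT_iff.1 hx))
  intro x y hx hy
  exact hE.trans (h2 x hx) (hE.trans (h1 x y) (hE.symm (h2 y hy)))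

end Pool.Agent.Results.MP_bd1db0_lc.ContinuousRepresentative
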