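import Pool.Agent.H76.LUD.Seq

/-!
# A dichotomy for all Turing-to-many-one invariant functions
-/

set_option autoImplicit false

namespace Pool.Agent.Results.MP_bd1db0_lc.JumpInDegree

open Pool.Agent.H69 Pool.Agent.H81.TM Pool.Agent.H76.LUD

/-- Let `f` send Turing equivalent points above `c0` to many-one equivalent points, and let the
games of the σ-algebra of `f` be determined. Then `f` is constant on a cone up to many-one
equivalence, or there are a place `k` and a bit `s` such that the complete open condition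
`∃ n, p (2 * n) = true` is equivalent to `f (Z p) k = s` for a nonexpanding decodable map `Z`,
which preserves the Turing degree on a cone; in particular for all `x` in the cone every set `B`
computably enumerable in `x` is given by `B n = true ↔ f (Y n) k = s` for a sequence `Y` computable
from `x` of points Turing equivalent to `x`. -/
theorem result (c0 : ℕ → Bool) (f : (ℕ → Bool) → (ℕ → Bool)) (hdet : GamesDet f)
    (hinv : ∀ x y, LeT c0 x → LeT c0 y → EqT x y → EqM (f x) (f y)) :
    (∃ c, ∀ x y, LeT c x → LeT c y → EqM (f x) (f y)) ∨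
    ∃ (c : ℕ → Bool) (k : ℕ) (s : Bool),
      (∃ Z : (ℕ → Bool) → (ℕ → Bool), Lip Z ∧ (∃ a b, Dec Z a b) ∧
        (∀ p, LeT c p → EqT (Z p) p) ∧ ∀ p, (f (Z p) k = s ↔ ∃ n, p (2 * n) = true)) ∧
      ∀ x, LeT c x → ∀ B, CeIn x B → ∃ Y : ℕ → ℕ → Bool, SeqIn x Y ∧
        ∀ n, (f (Y n) k = s ↔ B n = true) := by
  rcases All.dic c0 f hdet hinv with h | ⟨k, s, Z, a, b, hZl, hZd, hZ⟩
  · exact Or.inl h
  · right
    obtain ⟨c, hc, hseq⟩ := exists_seq hZl hZd
    refine ⟨c, k, s, ⟨Z, hZl, ⟨a, b, hZd⟩, hc, hZ⟩, ?_⟩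
    intro x hx B hB
    obtain ⟨P, hP, hP1⟩ := hseq x hx B hB
    exact ⟨fun n => Z (P n), hP, fun n => (hZ (P n)).trans (hP1 n)⟩

end Pool.Agent.Results.MP_bd1db0_lc.JumpInDegree
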