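import Pool.Agent.H76.LUD.Seq

/-!
# Martin's conjecture part I for locally uniform Turing-to-many-one invariant functions
-/

set_option autoImplicit false

namespace Pool.Agent.Results.MP_bd1db0_lc.LocallyUniform

open Pool.Agent.H69 Pool.Agent.H81.TM Pool.Agent.H76.LUD

/-- Let `f` be locally uniform above `c0` (this implies that `f` sends Turing equivalent points
above `c0` to many-one equivalent points), and let the games of the σ-algebra of `f` be
determined. Then there is a cone on which `f` is constant up to many-one equivalence, or `f x` is
many-one above the Turing jump of `x` for all `x` in the cone (every set computably enumerable in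
`x` is many-one reducible to `f x`), or above the complement of the jump. -/
theorem result (c0 : ℕ → Bool) (f : (ℕ → Bool) → (ℕ → Bool)) (hdet : GamesDet f)
    (hloc : LocUnif c0 f) :
    ∃ c, (∀ x y, LeT c x → LeT c y → EqM (f x) (f y)) ∨
      (∀ x, LeT c x → ∀ B, CeIn x B → LeM B (f x)) ∨
      (∀ x, LeT c x → ∀ B, CeIn x B → LeM (fun n => !(B n)) (f x)) :=
  All.luf c0 f hdet hloc

end Pool.Agent.Results.MP_bd1db0_lc.LocallyUniform
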